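import Mathlib

/-!
Formal power series part of the proof of the non-singularity of the root matrix
(MP_432bca_pr).
-/

namespace Pool.Agent.R515.RM

open PowerSeries Filter Topology Finset

/-- convolution with a probability sequence: refined sup bound -/
lemma coeff_mul_bound (q : ℕ → ℝ) (hq : ∀ i, 0 ≤ q i) (hq1 : HasSum q 1)
    (F : PowerSeries ℂ) (B : ℝ) (hB : ∀ i, ‖coeff i F‖ ≤ B) (n : ℕ) :
    ‖coeff n (PowerSeries.mk (fun i => (q i : ℂ)) * F)‖ ≤ B - q 0 * (B - ‖coeff n F‖) := by
  have hB0 : 0 ≤ B := le_trans (norm_nonneg _) (hB 0)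
  rw [PowerSeries.coeff_mul]
  have h1 : ‖∑ p ∈ antidiagonal n, coeff p.1 (PowerSeries.mk (fun i => (q i : ℂ))) * coeff p.2 F‖
      ≤ ∑ p ∈ antidiagonal n, q p.1 * ‖coeff p.2 F‖ := by
    refine (norm_sum_le _ _).trans (le_of_eq (Finset.sum_congr rfl fun p _ => ?_))
    rw [norm_mul, PowerSeries.coeff_mk, Complex.norm_real, Real.norm_of_nonneg (hq _)]
  refine h1.trans ?_
  rw [Finset.Nat.sum_antidiagonal_eq_sum_range_succ (fun i j => q i * ‖coeff j F‖) n,
    Finset.sum_range_succ']
  simp only [Nat.sub_zero]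
  have h2 : ∑ k ∈ range n, q (k+1) * ‖coeff (n - (k+1)) F‖ ≤ ∑ k ∈ range n, q (k+1) * B :=
    Finset.sum_le_sum fun k _ => mul_le_mul_of_nonneg_left (hB _) (hq _)
  have h3 : ∑ k ∈ range (n+1), q k ≤ 1 := sum_le_hasSum _ (fun i _ => hq i) hq1
  rw [Finset.sum_range_succ'] at h3
  rw [← Finset.sum_mul] at h2
  nlinarith

/-- the chain of power series -/
noncomputable def chain (M : ℕ → ℕ) (g r : ℕ → PowerSeries ℂ) (h : PowerSeries ℂ) :
    ℕ → PowerSeries ℂ
  | 0 => h
  | k+1 => (g k)⁻¹ * ((X : PowerSeries ℂ)^(M k) * chain M g r h k - r k)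

theorem formal_kernel (N : ℕ) (M : ℕ → ℕ) (q : ℕ → ℕ → ℝ) (r : ℕ → PowerSeries ℂ)
    (hq : ∀ k < N, ∀ i, 0 ≤ q k i) (hq1 : ∀ k < N, HasSum (q k) 1)
    (hq0 : ∀ k < N, 0 < q k 0) (hM : 0 < ∑ k ∈ range N, M k)
    (hr : ∀ k < N, ∀ i, M k ≤ i → coeff i (r k) = 0)
    (h : PowerSeries ℂ)
    (hh : ((X : PowerSeries ℂ)^(∑ k ∈ range N, M k)
        - ∏ k ∈ range N, PowerSeries.mk (fun i => (q k i : ℂ))) * h
      = ∑ k ∈ range N, (∏ i ∈ range k, PowerSeries.mk (fun j => (q i j : ℂ)))
          * (X : PowerSeries ℂ)^(∑ i ∈ Ico (k+1) N, M i) * r k)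
    (h0 : Tendsto (fun n => coeff n h) atTop (𝓝 0)) :
    ∀ k < N, r k = 0 := by
  set g : ℕ → PowerSeries ℂ := fun k => PowerSeries.mk (fun i => (q k i : ℂ)) with hg
  set H := chain M g r h with hH
  have hgc : ∀ k < N, constantCoeff (g k) ≠ 0 := by
    intro k hk
    simp only [hg]
    rw [← PowerSeries.coeff_zero_eq_constantCoeff_apply, PowerSeries.coeff_mk]
    exact_mod_cast (hq0 k hk).ne'
  have hgne : ∀ k < N, g k ≠ 0 := by
    intro k hk h
    apply hgc k hk
    rw [h]; simp
  have claim1 : ∀ k < N, g k * H (k+1) = X^(M k) * H k - r k := by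
    intro k hk
    show g k * ((g k)⁻¹ * _) = _
    rw [← mul_assoc, PowerSeries.mul_inv_cancel _ (hgc k hk), one_mul]
  have claim2 : ∀ k ≤ N, (∏ i ∈ range k, g i) * H k
      = X^(∑ i ∈ range k, M i) * h
        - ∑ j ∈ range k, (∏ i ∈ range j, g i) * X^(∑ i ∈ Ico (j+1) k, M i) * r j := by
    intro k
    induction k with
    | zero => intro _; simp [hH, chain]
    | succ k ih =>
      intro hk
      have ih' := ih (by omega)
      rw [Finset.prod_range_succ, mul_assoc, claim1 k (by omega), mul_sub, ← mul_assoc,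
        mul_comm _ (X^(M k)), mul_assoc, ih', Finset.sum_range_succ, Finset.sum_range_succ]
      have e1 : ∀ j ∈ range k, (∏ i ∈ range j, g i) * (X : PowerSeries ℂ)^(∑ i ∈ Ico (j+1) (k+1), M i) * r j
          = X^(M k) * ((∏ i ∈ range j, g i) * X^(∑ i ∈ Ico (j+1) k, M i) * r j) := by
        intro j hj
        rw [Finset.mem_range] at hj
        rw [Finset.sum_Ico_succ_top (by omega), pow_add]
        ring
      rw [Finset.sum_congr rfl e1, ← Finset.mul_sum]
      simp only [Finset.Ico_self, Finset.sum_empty, pow_zero, mul_one, pow_add]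
      ring
  have claim3 : H N = h := by
    have h1 := claim2 N le_rfl
    have h2 : (∏ i ∈ range N, g i) * H N = (∏ i ∈ range N, g i) * h := by
      rw [h1, ← hh]; ring
    have h3 : (∏ i ∈ range N, g i) ≠ 0 :=
      Finset.prod_ne_zero_iff.mpr fun i hi => hgne i (Finset.mem_range.mp hi)
    exact mul_left_cancel₀ h3 h2
  have H0 : H 0 = h := rfl
  -- recursion for coefficients
  have rec1 : ∀ k < N, ∀ i, coeff (i + M k) (g k * H (k+1)) = coeff i (H k) := by
    intro k hk i
    rw [claim1 k hk, map_sub, hr k hk _ (by omega), sub_zero, PowerSeries.coeff_X_pow_mul]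
  -- bound
  have bound : ∀ B : ℝ, (∀ i, ‖coeff i h‖ ≤ B) → ∀ k ≤ N, ∀ i, ‖coeff i (H k)‖ ≤ B := by
    intro B hB k hk
    induction hd : N - k generalizing k with
    | zero =>
      have : k = N := by omega
      subst this
      rw [claim3]; exact hB
    | succ d ih =>
      have h1 := ih (k+1) (by omega) (by omega)
      intro i
      rw [← rec1 k (by omega) i]
      refine (coeff_mul_bound (q k) (hq k (by omega)) (hq1 k (by omega)) _ B h1 _).trans ?_
      have := hq k (by omega) 0
      have h2 := h1 (i + M k)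
      nlinarith
  -- max principle
  have hzero : h = 0 := by
    by_contra hne
    obtain ⟨j, hj⟩ : ∃ j, coeff j h ≠ 0 := by
      by_contra hcon
      push Not at hcon
      exact hne (PowerSeries.ext (by simpa using hcon))
    have hε : 0 < ‖coeff j h‖ := norm_pos_iff.mpr hj
    have h1 : ∀ᶠ n in atTop, ‖coeff n h‖ < ‖coeff j h‖ := by
      have := h0.norm
      rw [norm_zero] at this
      exact this.eventually_lt_const hε
    obtain ⟨K, hK⟩ := eventually_atTop.mp h1
    obtain ⟨i0, hi0, hmax⟩ := Finset.exists_max_image (range (K + j + 1)) (fun i => ‖coeff i h‖)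
      ⟨j, by simp⟩
    set B := ‖coeff i0 h‖ with hBdef
    have hjB : ‖coeff j h‖ ≤ B := hmax j (by simp)
    have hBall : ∀ i, ‖coeff i h‖ ≤ B := by
      intro i
      by_cases hi : i < K + j + 1
      · exact hmax i (by simpa using hi)
      · exact (hK i (by omega)).le.trans hjB
    have hstep : ∀ i, ‖coeff i h‖ = B → ‖coeff (i + ∑ k ∈ range N, M k) h‖ = B := by
      intro i hi
      have : ∀ k ≤ N, ‖coeff (i + ∑ j ∈ range k, M j) (H k)‖ = B := by
        intro k
        induction k with
        | zero => intro _; simpa [H0] using hi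
        | succ k ih =>
          intro hk
          have ih' := ih (by omega)
          rw [Finset.sum_range_succ, ← add_assoc]
          refine le_antisymm (bound B hBall _ hk _) ?_
          have h2 := coeff_mul_bound (q k) (hq k (by omega)) (hq1 k (by omega)) (H (k+1)) B
            (bound B hBall _ hk) (i + ∑ j ∈ range k, M j + M k)
          have h3 := rec1 k (by omega) (i + ∑ j ∈ range k, M j)
          rw [show PowerSeries.mk (fun i => (q k i : ℂ)) = g k from rfl, h3, ih'] at h2
          have := hq0 k (by omega)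
          nlinarith
      have := this N le_rfl
      rwa [claim3] at this
    have hall : ∀ t : ℕ, ‖coeff (i0 + t * ∑ k ∈ range N, M k) h‖ = B := by
      intro t
      induction t with
      | zero => simp [hBdef]
      | succ t ih =>
        have := hstep _ ih
        rw [show i0 + (t+1) * ∑ k ∈ range N, M k
          = i0 + t * ∑ k ∈ range N, M k + ∑ k ∈ range N, M k by ring]
        exact this
    have h4 := hall K
    have h5 := hK (i0 + K * ∑ k ∈ range N, M k) (by nlinarith)
    linarith
  -- conclusion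
  have hHz : ∀ k ≤ N, H k = 0 := by
    intro k hk
    ext i
    have := bound 0 (by simp [hzero]) k hk i
    simpa using norm_le_zero_iff.mp this
  intro k hk
  have := claim1 k hk
  rw [hHz k (by omega), hHz (k+1) (by omega)] at this
  simpa using this.symm

end Pool.Agent.R515.RM
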