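import Mathlib

/-!
Coefficients of a bounded power series on the unit disc are square summable
(Parseval); used in MP_432bca_pr.
-/

namespace Pool.Agent.R515.RM

open Filter Topology Finset MeasureTheory

local instance fact01 : Fact ((0:ℝ) < 1) := ⟨one_pos⟩

theorem sum_sq_le (H : ℂ → ℂ) (a : ℕ → ℂ) (C : ℝ)
    (hH : ∀ s : ℂ, ‖s‖ < 1 → HasSum (fun n => a n * s^n) (H s))
    (hC : ∀ s : ℂ, ‖s‖ < 1 → ‖H s‖ ≤ C) (r : ℝ) (hr0 : 0 ≤ r) (hr1 : r < 1) (K : ℕ) :
    ∑ n ∈ range K, ‖a n * (r:ℂ)^n‖^2 ≤ C^2 := by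
  have hC0 : 0 ≤ C := (norm_nonneg _).trans (hC 0 (by simp))
  have hsum : Summable (fun n : ℕ => ‖a n * (r:ℂ)^n‖) := by
    rw [summable_norm_iff]
    exact (hH (r:ℂ) (by rw [Complex.norm_real, Real.norm_of_nonneg hr0]; exact hr1)).summable
  have hsum2 : Summable (fun n : ℕ => (a n * (r:ℂ)^n) • (@fourier 1 (n:ℤ))) := by
    apply Summable.of_norm
    refine hsum.congr fun n => ?_
    rw [norm_smul, fourier_norm, mul_one]
  obtain ⟨g, hg⟩ := hsum2
  have hgt : ∀ t : AddCircle (1:ℝ), g t = H ((r:ℂ) * (AddCircle.toCircle t : ℂ)) := by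
    intro t
    have h1 := ContinuousMap.hasSum_apply hg t
    have h2 : ‖(r:ℂ) * (AddCircle.toCircle t : ℂ)‖ < 1 := by
      rw [norm_mul, Circle.norm_coe, mul_one, Complex.norm_real, Real.norm_of_nonneg hr0]; exact hr1
    have h3 := hH _ h2
    refine HasSum.unique h1 (h3.congr_fun ?_ ) 
    intro n
    rw [ContinuousMap.smul_apply, fourier_apply, natCast_zsmul, AddCircle.toCircle_nsmul, mul_pow]
    simp [mul_assoc]
  have hgn : ‖g‖ ≤ C := by
    rw [ContinuousMap.norm_le _ hC0]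
    intro t
    rw [hgt]
    apply hC
    rw [norm_mul, Circle.norm_coe, mul_one, Complex.norm_real, Real.norm_of_nonneg hr0]; exact hr1
  set T : C(AddCircle (1:ℝ), ℂ) →L[ℂ] Lp ℂ 2 (@AddCircle.haarAddCircle 1 _) :=
    ContinuousMap.toLp 2 AddCircle.haarAddCircle ℂ with hT
  have hTn : ‖T g‖ ≤ C := by
    have h1 : ‖T‖ ≤ 1 := by
      have := ContinuousMap.toLp_norm_le (p := 2) (μ := @AddCircle.haarAddCircle 1 _) (E := ℂ) (𝕜 := ℂ)
      refine this.trans ?_
      simp [measureUnivNNReal]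
    calc ‖T g‖ ≤ ‖T‖ * ‖g‖ := T.le_opNorm g
      _ ≤ 1 * C := by gcongr
      _ = C := one_mul C
  have hTs : HasSum (fun n : ℕ => (a n * (r:ℂ)^n) • (@fourierLp 1 _ 2 _ (n:ℤ))) (T g) := by
    have := hg.mapL T
    simpa using this
  have hon := @orthonormal_fourier 1 _
  have hin : ∀ k : ℕ, inner ℂ (@fourierLp 1 _ 2 _ (k:ℤ)) (T g) = a k * (r:ℂ)^k := by
    intro k
    have h1 := hTs.mapL (innerSL ℂ (@fourierLp 1 _ 2 _ (k:ℤ)))
    simp only [innerSL_apply_apply, inner_smul_right] at h1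
    have h2 : ∀ n : ℕ, n ≠ k → a n * (r:ℂ)^n * inner ℂ (@fourierLp 1 _ 2 _ (k:ℤ)) (@fourierLp 1 _ 2 _ (n:ℤ)) = 0 := by
      intro n hn
      rw [hon.2 (by exact_mod_cast hn.symm), mul_zero]
    have h3 := hasSum_single k h2
    have h4 := h1.unique h3
    rw [h4, inner_self_eq_norm_sq_to_K, hon.1]
    simp
  have hbes := hon.sum_inner_products_le (x := T g) (s := (range K).map ⟨fun n : ℕ => (n:ℤ), Nat.cast_injective⟩)
  rw [Finset.sum_map] at hbes
  simp only [Function.Embedding.coeFn_mk, hin] at hbes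
  refine hbes.trans ?_
  gcongr

theorem coeff_tendsto_zero (H : ℂ → ℂ) (a : ℕ → ℂ) (C : ℝ)
    (hH : ∀ s : ℂ, ‖s‖ < 1 → HasSum (fun n => a n * s^n) (H s))
    (hC : ∀ s : ℂ, ‖s‖ < 1 → ‖H s‖ ≤ C) : Tendsto a atTop (𝓝 0) := by
  have h1 : ∀ K, ∑ n ∈ range K, ‖a n‖^2 ≤ C^2 := by
    intro K
    have hcont : Continuous (fun r : ℝ => ∑ n ∈ range K, ‖a n * (r:ℂ)^n‖^2) := by fun_prop
    have ht : Tendsto (fun r : ℝ => ∑ n ∈ range K, ‖a n * (r:ℂ)^n‖^2) (𝓝[<] 1)
        (𝓝 (∑ n ∈ range K, ‖a n‖^2)) := by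
      have := hcont.continuousAt.tendsto (x := (1:ℝ))
      simp only [Complex.ofReal_one, one_pow, mul_one] at this
      exact this.mono_left nhdsWithin_le_nhds
    refine le_of_tendsto ht ?_
    have : ∀ᶠ r : ℝ in 𝓝[<] 1, 0 < r := by
      apply nhdsWithin_le_nhds
      exact lt_mem_nhds one_pos
    filter_upwards [this, self_mem_nhdsWithin] with r hr hr1
    exact sum_sq_le H a C hH hC r hr.le hr1 K
  have h2 : Summable (fun n => ‖a n‖^2) :=
    summable_of_sum_range_le (fun n => by positivity) h1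
  have h3 := h2.tendsto_atTop_zero
  rw [tendsto_zero_iff_norm_tendsto_zero]
  have h4 := (Real.continuous_sqrt.tendsto 0).comp h3
  simp only [Real.sqrt_zero] at h4
  refine h4.congr fun n => ?_
  simp [Real.sqrt_sq]

end Pool.Agent.R515.RM
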