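import Mathlib

/-!
Quotient of two functions analytic on the disc and Lipschitz up to the boundary
(used in MP_432bca_pr).
-/

namespace Pool.Agent.R515.RM

open Filter Topology Finset Metric

theorem exists_quot (E Ψ : ℂ → ℂ)
    (hE : AnalyticOnNhd ℂ E (ball 0 1)) (hΨ : AnalyticOnNhd ℂ Ψ (ball 0 1))
    (hEc : ContinuousOn E (closedBall 0 1)) (hΨc : ContinuousOn Ψ (closedBall 0 1))
    (hE0 : E 0 ≠ 0)
    (hord : ∀ z ∈ ball (0:ℂ) 1, analyticOrderAt E z ≤ analyticOrderAt Ψ z)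
    (hbd : ∀ z ∈ sphere (0:ℂ) 1, E z = 0 → ∃ c > 0, ∃ C, ∀ᶠ s in 𝓝[closedBall 0 1] z,
      c * ‖s - z‖ ≤ ‖E s‖ ∧ ‖Ψ s‖ ≤ C * ‖s - z‖) :
    ∃ H : ℂ → ℂ, DifferentiableOn ℂ H (ball 0 1) ∧ (∀ s ∈ ball (0:ℂ) 1, E s * H s = Ψ s) ∧
      ∃ C, ∀ s ∈ ball (0:ℂ) 1, ‖H s‖ ≤ C := by
  have hpc : IsPreconnected (ball (0:ℂ) 1) := (convex_ball 0 1).isPreconnected
  have hEtop : ∀ z ∈ ball (0:ℂ) 1, analyticOrderAt E z ≠ ⊤ := by
    intro z hz
    apply hE.analyticOrderAt_ne_top_of_isPreconnected hpc (x := 0) (mem_ball_self one_pos) hz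
    rw [(hE 0 (mem_ball_self one_pos)).analyticOrderAt_eq_zero.mpr hE0]
    simp
  have hmer : MeromorphicOn (Ψ / E) (ball 0 1) := by
    intro z hz
    exact (hΨ z hz).meromorphicAt.div (hE z hz).meromorphicAt
  set H := toMeromorphicNFOn (Ψ / E) (ball 0 1) with hH
  have hHan : ∀ z ∈ ball (0:ℂ) 1, AnalyticAt ℂ H z := by
    intro z hz
    have h1 : MeromorphicNFAt H z := meromorphicNFOn_toMeromorphicNFOn _ _ hz
    rw [← h1.meromorphicOrderAt_nonneg_iff_analyticAt, hH,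
      meromorphicOrderAt_toMeromorphicNFOn hmer hz,
      meromorphicOrderAt_div (hΨ z hz).meromorphicAt (hE z hz).meromorphicAt,
      (hΨ z hz).meromorphicOrderAt_eq, (hE z hz).meromorphicOrderAt_eq]
    have h2 := hord z hz
    have h3 := hEtop z hz
    lift (analyticOrderAt E z) to ℕ using h3 with a
    cases hb : analyticOrderAt Ψ z with
    | top => simp
    | coe b => 
      rw [hb] at h2
      have h4 : a ≤ b := by exact_mod_cast h2
      have h5 : (0:ℤ) ≤ (b:ℤ) - (a:ℤ) := by omega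
      simp only [ENat.map_natCast]
      exact_mod_cast h5
  have hprod : ∀ s ∈ ball (0:ℂ) 1, E s * H s = Ψ s := by
    intro z hz
    have h1 := hmer.toMeromorphicNFOn_eq_self_on_nhdsNE hz
    have h2 : ∀ᶠ s in 𝓝[≠] z, E s ≠ 0 := by
      rcases (hE z hz).eventually_eq_zero_or_eventually_ne_zero with h | h
      · exact absurd (analyticOrderAt_eq_top.mpr h) (hEtop z hz)
      · exact h
    have h3 : (fun s => E s * H s) =ᶠ[𝓝[≠] z] Ψ := by
      filter_upwards [h1, h2] with s hs1 hs2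
      show E s * H s = Ψ s
      rw [hH, hs1, Pi.div_apply]
      field_simp
    have h4 : ContinuousAt (fun s => E s * H s) z :=
      (hE z hz).continuousAt.mul (hHan z hz).continuousAt
    exact tendsto_nhds_unique_of_eventuallyEq (l := 𝓝[≠] z)
      (h4.tendsto.mono_left nhdsWithin_le_nhds)
      ((hΨ z hz).continuousAt.tendsto.mono_left nhdsWithin_le_nhds) h3
  refine ⟨H, fun z hz => (hHan z hz).differentiableAt.differentiableWithinAt, hprod, ?_⟩
  -- boundedness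
  have hloc : ∀ z ∈ closedBall (0:ℂ) 1, ∃ t ∈ 𝓝[closedBall 0 1] z, ∃ C, ∀ s ∈ t,
      s ∈ ball (0:ℂ) 1 → ‖H s‖ ≤ C := by
    intro z hz
    by_cases hz1 : z ∈ ball (0:ℂ) 1
    · have h1 := (hHan z hz1).continuousAt.norm
      have h2 : ∀ᶠ s in 𝓝 z, ‖H s‖ < ‖H z‖ + 1 := h1.eventually_lt_const (by linarith)
      exact ⟨_, nhdsWithin_le_nhds h2, ‖H z‖ + 1, fun s hs _ => le_of_lt hs⟩
    · have hzs : z ∈ sphere (0:ℂ) 1 := by
        rw [mem_sphere_zero_iff_norm]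
        rw [mem_closedBall_zero_iff] at hz
        rw [mem_ball_zero_iff] at hz1
        linarith
      by_cases hEz : E z = 0
      · obtain ⟨c, hc, C, hev⟩ := hbd z hzs hEz
        refine ⟨_, hev, C / c, ?_⟩
        intro s hs hs1
        obtain ⟨ha, hb⟩ := hs
        have hne : s ≠ z := fun h => hz1 (h ▸ hs1)
        have hpos : 0 < ‖s - z‖ := norm_pos_iff.mpr (sub_ne_zero.mpr hne)
        rw [← hprod s hs1, norm_mul] at hb
        rw [le_div_iff₀ hc]
        have h5 : c * ‖s - z‖ * ‖H s‖ ≤ ‖E s‖ * ‖H s‖ := by gcongr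
        have h6 : (‖H s‖ * c) * ‖s - z‖ ≤ C * ‖s - z‖ := by nlinarith
        exact le_of_mul_le_mul_right h6 hpos
      · have h1 : ContinuousWithinAt (fun s => ‖Ψ s‖ / ‖E s‖) (closedBall 0 1) z :=
          (hΨc z hz).norm.div (hEc z hz).norm (by simpa using hEz)
        have h2 : ∀ᶠ s in 𝓝[closedBall 0 1] z, ‖Ψ s‖ / ‖E s‖ < ‖Ψ z‖ / ‖E z‖ + 1 :=
          h1.tendsto.eventually_lt_const (by linarith)
        have h3 : ∀ᶠ s in 𝓝[closedBall 0 1] z, E s ≠ 0 :=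
          (hEc z hz).tendsto.eventually_ne hEz
        refine ⟨_, h2.and h3, ‖Ψ z‖ / ‖E z‖ + 1, ?_⟩
        intro s hs hs1
        obtain ⟨ha, hb⟩ := hs
        have : ‖H s‖ = ‖Ψ s‖ / ‖E s‖ := by
          rw [← hprod s hs1, norm_mul]
          field_simp
        rw [this]; exact ha.le
  have hcomp : IsCompact (closedBall (0:ℂ) 1) := isCompact_closedBall 0 1
  have key : ∃ C, ∀ s ∈ closedBall (0:ℂ) 1, s ∈ ball (0:ℂ) 1 → ‖H s‖ ≤ C := by
    refine hcomp.induction_on (p := fun t => ∃ C, ∀ s ∈ t, s ∈ ball (0:ℂ) 1 → ‖H s‖ ≤ C)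
      ⟨0, by simp⟩ ?_ ?_ hloc
    · rintro s t hst ⟨C, hC⟩
      exact ⟨C, fun x hx => hC x (hst hx)⟩
    · rintro s t ⟨C, hC⟩ ⟨C', hC'⟩
      refine ⟨max C C', fun x hx hx1 => ?_⟩
      rcases hx with hx | hx
      · exact (hC x hx hx1).trans (le_max_left _ _)
      · exact (hC' x hx hx1).trans (le_max_right _ _)
  obtain ⟨C, hC⟩ := key
  exact ⟨C, fun s hs => hC s (ball_subset_closedBall hs) hs⟩

end Pool.Agent.R515.RM
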