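import Pool.Agent.R515.RM.Rep
import Pool.Agent.R515.RM.Quot
import Pool.Agent.R515.RM.Hardy
import Pool.Agent.R515.RM.Formal

/-!
Generating functions of integrable nonnegative integer valued laws, up to the boundary of
the unit disc (used in MP_432bca_pr).
-/

namespace Pool.Agent.R515.RM

open Filter Topology Finset Metric

/-- generating function of a sequence -/
noncomputable def gf (q : ℕ → ℝ) (s : ℂ) : ℂ := ∑' i : ℕ, (q i : ℂ) * s^i

section one
variable {q : ℕ → ℝ} (hq : ∀ i, 0 ≤ q i) (hq1 : HasSum q 1)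
include hq hq1

lemma gf_hasSum {s : ℂ} (hs : ‖s‖ ≤ 1) : HasSum (fun i => (q i : ℂ) * s^i) (gf q s) := by
  apply Summable.hasSum
  apply Summable.of_norm_bounded hq1.summable
  intro i
  rw [norm_mul, Complex.norm_real, Real.norm_of_nonneg (hq i), norm_pow]
  calc q i * ‖s‖^i ≤ q i * 1 := mul_le_mul_of_nonneg_left (pow_le_one₀ (norm_nonneg _) hs) (hq i)
    _ = q i := mul_one _

lemma gf_rep : Rep (PowerSeries.mk (fun i => (q i : ℂ))) (gf q) := by
  intro s hs
  simpa [PowerSeries.coeff_mk] using gf_hasSum hq hq1 hs.le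

lemma gf_one : gf q 1 = 1 := by
  have h1 := gf_hasSum hq hq1 (s := 1) (by simp)
  have h2 : HasSum (fun i => (q i : ℂ) * 1^i) ((1:ℝ) : ℂ) := by
    simpa using Complex.hasSum_ofReal.mpr hq1
  simpa using h1.unique h2

lemma gf_norm_le {s : ℂ} (hs : ‖s‖ ≤ 1) : ‖gf q s‖ ≤ 1 := by
  refine (gf_hasSum hq hq1 hs).norm_le_of_bounded hq1 fun i => ?_
  rw [norm_mul, Complex.norm_real, Real.norm_of_nonneg (hq i), norm_pow]
  calc q i * ‖s‖^i ≤ q i * 1 := mul_le_mul_of_nonneg_left (pow_le_one₀ (norm_nonneg _) hs) (hq i)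
    _ = q i := mul_one _

lemma gf_rot {a : ℂ} (ha : ‖a‖ = 1) (hg : ‖gf q a‖ = 1) {u : ℂ} (hu : ‖u‖ ≤ 1) :
    gf q (a * u) = gf q a * gf q u := by
  set c := gf q a with hc
  have h1 := gf_hasSum hq hq1 ha.le
  -- Re (conj c * a^i) = 1 on the support
  have h2 : HasSum (fun i => q i * (1 - ((starRingEnd ℂ) c * a^i).re)) 0 := by
    have h3 := (h1.mul_left ((starRingEnd ℂ) c))
    have h4 := Complex.hasSum_re h3
    have h5 := hq1.sub h4
    have h6 : ((starRingEnd ℂ) c * gf q a).re = 1 := by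
      rw [← hc, mul_comm, Complex.mul_conj, Complex.ofReal_re, Complex.normSq_eq_norm_sq, hg]
      norm_num
    rw [h6, sub_self] at h5
    refine h5.congr_fun fun i => ?_
    have : ((starRingEnd ℂ) c * ((q i : ℂ) * a^i)).re = q i * ((starRingEnd ℂ) c * a^i).re := by
      rw [show (starRingEnd ℂ) c * ((q i : ℂ) * a^i) = (q i : ℂ) * ((starRingEnd ℂ) c * a^i) by ring,
        Complex.re_ofReal_mul]
    rw [this]; ring
  have hnn : ∀ i, 0 ≤ q i * (1 - ((starRingEnd ℂ) c * a^i).re) := by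
    intro i
    apply mul_nonneg (hq i)
    have : ((starRingEnd ℂ) c * a^i).re ≤ ‖(starRingEnd ℂ) c * a^i‖ := Complex.re_le_norm _
    have h7 : ‖(starRingEnd ℂ) c * a^i‖ = 1 := by
      rw [norm_mul, RCLike.norm_conj, hg, norm_pow, ha]; simp
    linarith
  have h8 : ∀ i, q i * (1 - ((starRingEnd ℂ) c * a^i).re) = 0 := by
    have := (hasSum_zero_iff_of_nonneg hnn).mp h2
    intro i
    exact congrFun this i
  have h9 : ∀ i, (q i : ℂ) * a^i = (q i : ℂ) * c := by
    intro i
    rcases mul_eq_zero.mp (h8 i) with h | h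
    · rw [h]; simp
    · have hre : ((starRingEnd ℂ) c * a^i).re = 1 := by linarith
      have hn : ‖(starRingEnd ℂ) c * a^i‖ = 1 := by
        rw [norm_mul, RCLike.norm_conj, hg, norm_pow, ha]; simp
      have him : ((starRingEnd ℂ) c * a^i).im = 0 := by
        have := Complex.sq_norm ((starRingEnd ℂ) c * a^i)
        rw [hn, Complex.normSq_apply, hre] at this
        nlinarith
      have h10 : (starRingEnd ℂ) c * a^i = 1 := Complex.ext (by simpa using hre) (by simpa using him)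
      have h11 : c * (starRingEnd ℂ) c = 1 := by
        rw [Complex.mul_conj, Complex.normSq_eq_norm_sq, hg]; norm_num
      congr 1
      calc a^i = (c * (starRingEnd ℂ) c) * a^i := by rw [h11, one_mul]
        _ = c * ((starRingEnd ℂ) c * a^i) := by ring
        _ = c := by rw [h10, mul_one]
  have hau : ‖a * u‖ ≤ 1 := by rw [norm_mul, ha, one_mul]; exact hu
  refine (gf_hasSum hq hq1 hau).unique ?_
  refine ((gf_hasSum hq hq1 hu).mul_left c).congr_fun fun i => ?_
  rw [mul_pow, ← mul_assoc, h9]; ring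

lemma gf_hasDerivWithinAt (hq2 : Summable (fun i : ℕ => (i:ℝ) * q i)) {z : ℂ} (hz : ‖z‖ ≤ 1) :
    HasDerivWithinAt (gf q) (∑' i : ℕ, (q i : ℂ) * ∑ j ∈ range i, z^j * z^(i-1-j))
      (closedBall 0 1) z := by
  set k : ℂ → ℂ := fun s => ∑' i : ℕ, (q i : ℂ) * ∑ j ∈ range i, s^j * z^(i-1-j) with hk
  have hbound : ∀ (i : ℕ), ∀ s ∈ closedBall (0:ℂ) 1,
      ‖(q i : ℂ) * ∑ j ∈ range i, s^j * z^(i-1-j)‖ ≤ (i:ℝ) * q i := by
    intro i s hs
    rw [mem_closedBall_zero_iff] at hs
    rw [norm_mul, Complex.norm_real, Real.norm_of_nonneg (hq i), mul_comm]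
    apply mul_le_mul_of_nonneg_right _ (hq i)
    refine (norm_sum_le _ _).trans ?_
    have : ∀ j ∈ range i, ‖s^j * z^(i-1-j)‖ ≤ 1 := by
      intro j _
      rw [norm_mul, norm_pow, norm_pow]
      exact mul_le_one₀ (pow_le_one₀ (norm_nonneg _) hs) (by positivity)
        (pow_le_one₀ (norm_nonneg _) hz)
    refine (Finset.sum_le_sum this).trans ?_
    simp
  have hkc : ContinuousOn k (closedBall 0 1) := by
    apply continuousOn_tsum (u := fun i : ℕ => (i:ℝ) * q i) _ hq2 hbound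
    intro i
    fun_prop
  have hfac : ∀ s ∈ closedBall (0:ℂ) 1, gf q s - gf q z = (s - z) * k s := by
    intro s hs
    have h1 := (gf_hasSum hq hq1 (mem_closedBall_zero_iff.mp hs)).sub (gf_hasSum hq hq1 hz)
    have h2 : Summable (fun i : ℕ => (q i : ℂ) * ∑ j ∈ range i, s^j * z^(i-1-j)) :=
      Summable.of_norm_bounded hq2 fun i => hbound i s hs
    refine h1.unique ((h2.hasSum.mul_left (s - z)).congr_fun fun i => ?_)
    have := (Commute.all s z).mul_geom_sum₂ i
    rw [← mul_sub, ← this]; ring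
  rw [hasDerivWithinAt_iff_tendsto_slope]
  have h3 : Tendsto k (𝓝[closedBall 0 1 \ {z}] z) (𝓝 (k z)) :=
    (hkc z (mem_closedBall_zero_iff.mpr hz)).tendsto.mono_left (nhdsWithin_mono _ Set.sdiff_subset)
  refine h3.congr' ?_
  filter_upwards [self_mem_nhdsWithin] with s hs
  obtain ⟨hs1, hs2⟩ := hs
  have hne : s - z ≠ 0 := sub_ne_zero.mpr hs2
  rw [slope_def_field, hfac s hs1]
  field_simp

lemma gf_hasDerivWithinAt_one (hq2 : Summable (fun i : ℕ => (i:ℝ) * q i)) :
    HasDerivWithinAt (gf q) ((∑' i : ℕ, (i:ℝ) * q i : ℝ) : ℂ) (closedBall 0 1) 1 := by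
  have := gf_hasDerivWithinAt hq hq1 hq2 (z := 1) (by simp)
  convert this using 1
  rw [Complex.ofReal_tsum]
  congr 1
  ext i
  simp [mul_comm]

end one

end Pool.Agent.R515.RM
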