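import Pool.Agent.R515.RM.Gen

/-!
Analytic form of the kernel triviality (used in MP_432bca_pr).
-/

namespace Pool.Agent.R515.RM

open Filter Topology Finset Metric

/-- `E(s) = s^M - ∏ g_k(s)` -/
noncomputable def Efun (N : ℕ) (M : ℕ → ℕ) (q : ℕ → ℕ → ℝ) (s : ℂ) : ℂ :=
  s^(∑ k ∈ range N, M k) - ∏ k ∈ range N, gf (q k) s

/-- the numerator -/
noncomputable def Psi (N : ℕ) (M : ℕ → ℕ) (q : ℕ → ℕ → ℝ) (r : ℕ → Polynomial ℂ) (s : ℂ) : ℂ :=
  ∑ k ∈ range N, (∏ i ∈ range k, gf (q i) s) * s^(∑ i ∈ Ico (k+1) N, M i) * (r k).eval s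

section
variable {N : ℕ} {M : ℕ → ℕ} {q : ℕ → ℕ → ℝ}
    (hq : ∀ k < N, ∀ i, 0 ≤ q k i) (hq1 : ∀ k < N, HasSum (q k) 1)
    (hq2 : ∀ k < N, Summable (fun i : ℕ => (i:ℝ) * q k i))

include hq hq1

lemma Efun_one : Efun N M q 1 = 0 := by
  unfold Efun
  rw [Finset.prod_eq_one]
  · simp
  · intro k hk
    rw [Finset.mem_range] at hk
    exact gf_one (hq k hk) (hq1 k hk)

lemma Efun_rot {a : ℂ} (ha : ‖a‖ = 1) (hE : Efun N M q a = 0) {u : ℂ} (hu : ‖u‖ ≤ 1) :
    Efun N M q (a * u) = a^(∑ k ∈ range N, M k) * Efun N M q u := by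
  have h1 : ∏ k ∈ range N, gf (q k) a = a^(∑ k ∈ range N, M k) := by
    unfold Efun at hE; rw [sub_eq_zero] at hE; exact hE.symm
  have h2 : ∏ k ∈ range N, ‖gf (q k) a‖ = 1 := by
    rw [← norm_prod, h1, norm_pow, ha, one_pow]
  have h3 : ∀ k ∈ range N, ‖gf (q k) a‖ = 1 := by
    intro k hk
    have hk' := Finset.mem_range.mp hk
    refine le_antisymm (gf_norm_le (hq k hk') (hq1 k hk') ha.le) ?_
    by_contra hcon
    push Not at hcon
    have h4 : ∏ j ∈ (range N).erase k, ‖gf (q j) a‖ ≤ 1 := by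
      apply Finset.prod_le_one
      · intro i _; exact norm_nonneg _
      · intro i hi
        have hi' := Finset.mem_range.mp (Finset.mem_of_mem_erase hi)
        exact gf_norm_le (hq i hi') (hq1 i hi') ha.le
    have h5 := Finset.mul_prod_erase (range N) (fun j => ‖gf (q j) a‖) hk
    rw [h2] at h5
    have h6 : 0 ≤ ∏ j ∈ (range N).erase k, ‖gf (q j) a‖ := by positivity
    nlinarith [norm_nonneg (gf (q k) a)]
  have h4 : ∏ k ∈ range N, gf (q k) (a * u) = a^(∑ k ∈ range N, M k) * ∏ k ∈ range N, gf (q k) u := by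
    rw [← h1, ← Finset.prod_mul_distrib]
    refine Finset.prod_congr rfl fun k hk => ?_
    have hk' := Finset.mem_range.mp hk
    exact gf_rot (hq k hk') (hq1 k hk') ha (h3 k hk) hu
  unfold Efun
  rw [h4, mul_pow]; ring

include hq2

lemma Efun_diffOn : DifferentiableOn ℂ (Efun N M q) (closedBall 0 1) := by
  intro z hz
  unfold Efun
  apply DifferentiableWithinAt.sub
  · fun_prop
  · apply DifferentiableWithinAt.fun_finsetProd
    intro k hk
    have hk' := Finset.mem_range.mp hk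
    exact (gf_hasDerivWithinAt (hq k hk') (hq1 k hk') (hq2 k hk')
      (mem_closedBall_zero_iff.mp hz)).differentiableWithinAt

lemma Psi_diffOn (r : ℕ → Polynomial ℂ) :
    DifferentiableOn ℂ (Psi N M q r) (closedBall 0 1) := by
  intro z hz
  unfold Psi
  apply DifferentiableWithinAt.fun_sum
  intro k hk
  have hk' := Finset.mem_range.mp hk
  apply DifferentiableWithinAt.mul
  · apply DifferentiableWithinAt.mul
    · apply DifferentiableWithinAt.fun_finsetProd
      intro i hi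
      have hi' := Finset.mem_range.mp hi
      have hi'' : i < N := by omega
      exact (gf_hasDerivWithinAt (hq i hi'') (hq1 i hi'') (hq2 i hi'')
        (mem_closedBall_zero_iff.mp hz)).differentiableWithinAt
    · fun_prop
  · exact (r k).differentiable.differentiableAt.differentiableWithinAt

lemma Efun_hasDeriv_one : HasDerivWithinAt (Efun N M q)
    (((∑ k ∈ range N, (M k : ℝ)) - ∑ k ∈ range N, ∑' i : ℕ, (i:ℝ) * q k i : ℝ) : ℂ)
    (closedBall 0 1) 1 := by
  unfold Efun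
  have h1 : HasDerivWithinAt (fun s : ℂ => s^(∑ k ∈ range N, M k))
      (((∑ k ∈ range N, M k : ℕ) : ℂ)) (closedBall 0 1) 1 := by
    have := (hasDerivAt_pow (∑ k ∈ range N, M k) (1:ℂ)).hasDerivWithinAt (s := closedBall 0 1)
    simpa using this
  have h2 : HasDerivWithinAt (fun s : ℂ => ∏ k ∈ range N, gf (q k) s)
      (∑ k ∈ range N, (∏ j ∈ (range N).erase k, gf (q j) 1) •
        ((∑' i : ℕ, (i:ℝ) * q k i : ℝ) : ℂ)) (closedBall 0 1) 1 := by
    apply HasDerivWithinAt.fun_finsetProd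
    intro k hk
    have hk' := Finset.mem_range.mp hk
    exact gf_hasDerivWithinAt_one (hq k hk') (hq1 k hk') (hq2 k hk')
  have h3 := h1.sub h2
  have h4 : ∑ k ∈ range N, (∏ j ∈ (range N).erase k, gf (q j) 1) •
        ((∑' i : ℕ, (i:ℝ) * q k i : ℝ) : ℂ) = ∑ k ∈ range N, ((∑' i : ℕ, (i:ℝ) * q k i : ℝ) : ℂ) := by
    refine Finset.sum_congr rfl fun k hk => ?_
    rw [Finset.prod_eq_one, one_smul]
    intro j hj
    have hj' := Finset.mem_range.mp (Finset.mem_of_mem_erase hj)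
    exact gf_one (hq j hj') (hq1 j hj')
  rw [h4] at h3
  simp only [Complex.ofReal_sub, Complex.ofReal_sum, Complex.ofReal_natCast]
  simp only [Nat.cast_sum] at h3
  exact h3

lemma Efun_lower_one
    (hdrift : ∑ k ∈ range N, ∑' i : ℕ, (i:ℝ) * q k i < ∑ k ∈ range N, (M k : ℝ)) :
    ∃ c > 0, ∀ᶠ s in 𝓝[closedBall 0 1] (1:ℂ), c * ‖s - 1‖ ≤ ‖Efun N M q s‖ := by
  set d : ℝ := (∑ k ∈ range N, (M k : ℝ)) - ∑ k ∈ range N, ∑' i : ℕ, (i:ℝ) * q k i with hd
  have hd0 : 0 < d := by rw [hd]; linarith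
  have h := Efun_hasDeriv_one hq hq1 hq2 (M := M)
  rw [← hd, hasDerivWithinAt_iff_isLittleO] at h
  have h2 := h.def (half_pos hd0)
  refine ⟨d/2, half_pos hd0, ?_⟩
  filter_upwards [h2] with s hs
  rw [Efun_one hq hq1, sub_zero, smul_eq_mul] at hs
  have h3 : ‖(s - 1) * (d:ℂ)‖ = d * ‖s - 1‖ := by
    rw [norm_mul, Complex.norm_real, Real.norm_of_nonneg hd0.le, mul_comm]
  have h4 : ‖(s - 1) * (d:ℂ)‖ - ‖Efun N M q s‖ ≤ ‖Efun N M q s - (s - 1) * (d:ℂ)‖ := by
    have := norm_sub_norm_le ((s - 1) * (d:ℂ)) (Efun N M q s)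
    rwa [norm_sub_rev] at this
  linarith

lemma Efun_lower
    (hdrift : ∑ k ∈ range N, ∑' i : ℕ, (i:ℝ) * q k i < ∑ k ∈ range N, (M k : ℝ))
    {a : ℂ} (ha : ‖a‖ = 1) (hE : Efun N M q a = 0) :
    ∃ c > 0, ∀ᶠ s in 𝓝[closedBall 0 1] a, c * ‖s - a‖ ≤ ‖Efun N M q s‖ := by
  obtain ⟨c, hc, hev⟩ := Efun_lower_one hq hq1 hq2 hdrift
  refine ⟨c, hc, ?_⟩
  have ha0 : a ≠ 0 := by
    intro h; rw [h] at ha; simp at ha
  have ht : Tendsto (fun s : ℂ => s / a) (𝓝[closedBall 0 1] a) (𝓝[closedBall 0 1] (1:ℂ)) := by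
    apply tendsto_nhdsWithin_of_tendsto_nhds_of_eventually_within
    · have : ContinuousAt (fun s : ℂ => s / a) a := by fun_prop
      have h2 := this.tendsto
      rw [div_self ha0] at h2
      exact h2.mono_left nhdsWithin_le_nhds
    · filter_upwards [self_mem_nhdsWithin] with s hs
      rw [mem_closedBall_zero_iff] at hs ⊢
      rw [norm_div, ha, div_one]; exact hs
  filter_upwards [ht.eventually hev, self_mem_nhdsWithin] with s hs hs1
  rw [mem_closedBall_zero_iff] at hs1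
  have h1 : s = a * (s / a) := by field_simp
  have h2 : ‖s / a‖ ≤ 1 := by rw [norm_div, ha, div_one]; exact hs1
  have h3 : ‖Efun N M q s‖ = ‖Efun N M q (s / a)‖ := by
    conv_lhs => rw [h1]
    rw [Efun_rot hq hq1 ha hE h2, norm_mul, norm_pow, ha, one_pow, one_mul]
  have h4 : ‖s - a‖ = ‖s / a - 1‖ := by
    rw [show s / a - 1 = (s - a) / a by field_simp, norm_div, ha, div_one]
  rw [h3, h4]; exact hs

theorem analytic_kernel (hq0 : ∀ k < N, 0 < q k 0) (hM : 0 < ∑ k ∈ range N, M k)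
    (hdrift : ∑ k ∈ range N, ∑' i : ℕ, (i:ℝ) * q k i < ∑ k ∈ range N, (M k : ℝ))
    (r : ℕ → Polynomial ℂ) (hr : ∀ k < N, ∀ i, M k ≤ i → (r k).coeff i = 0)
    (hint : ∀ z : ℂ, ‖z‖ < 1 → analyticOrderAt (Efun N M q) z ≤ analyticOrderAt (Psi N M q r) z)
    (hbd : ∀ z : ℂ, ‖z‖ = 1 → Efun N M q z = 0 → Psi N M q r z = 0) :
    ∀ k < N, r k = 0 := by
  have hEd := Efun_diffOn hq hq1 hq2 (M := M)
  have hΨd := Psi_diffOn hq hq1 hq2 (M := M) r
  have hEa : AnalyticOnNhd ℂ (Efun N M q) (ball 0 1) :=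
    (hEd.mono ball_subset_closedBall).analyticOnNhd isOpen_ball
  have hΨa : AnalyticOnNhd ℂ (Psi N M q r) (ball 0 1) :=
    (hΨd.mono ball_subset_closedBall).analyticOnNhd isOpen_ball
  have hgf0 : ∀ k < N, gf (q k) 0 = (q k 0 : ℂ) := by
    intro k hk
    unfold gf
    rw [tsum_eq_single 0]
    · simp
    · intro i hi; simp [hi]
  have hE0 : Efun N M q 0 ≠ 0 := by
    unfold Efun
    rw [zero_pow (by omega), zero_sub, neg_ne_zero]
    apply Finset.prod_ne_zero_iff.mpr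
    intro k hk
    have hk' := Finset.mem_range.mp hk
    rw [hgf0 k hk']
    exact_mod_cast (hq0 k hk').ne'
  obtain ⟨H, hHd, hHE, C, hC⟩ := exists_quot (Efun N M q) (Psi N M q r) hEa hΨa
    hEd.continuousOn hΨd.continuousOn hE0 (fun z hz => hint z (by simpa using hz)) (by
      intro z hz hEz
      have hz1 : ‖z‖ = 1 := by simpa using hz
      obtain ⟨c, hc, hev⟩ := Efun_lower hq hq1 hq2 hdrift hz1 hEz
      have h1 := (hΨd z (by simp [hz1])).hasDerivWithinAt.isBigO_sub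
      obtain ⟨C, hC⟩ := h1.bound
      rw [Filter.prod_pure, eventually_map] at hC
      refine ⟨c, hc, C, ?_⟩
      filter_upwards [hev, hC] with s hs1 hs2
      refine ⟨hs1, ?_⟩
      rwa [hbd z hz1 hEz, sub_zero] at hs2)
  obtain ⟨h, hh⟩ := rep_of_differentiableOn hHd
  have hE : Rep ((PowerSeries.X : PowerSeries ℂ)^(∑ k ∈ range N, M k)
        - ∏ k ∈ range N, PowerSeries.mk (fun i => (q k i : ℂ))) (Efun N M q) := by
    apply (Rep.X_pow _).sub
    apply Rep.prod
    intro k hk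
    have hk' := Finset.mem_range.mp hk
    exact gf_rep (hq k hk') (hq1 k hk')
  have hΨ : Rep (∑ k ∈ range N, (∏ i ∈ range k, PowerSeries.mk (fun j => (q i j : ℂ)))
          * (PowerSeries.X : PowerSeries ℂ)^(∑ i ∈ Ico (k+1) N, M i) * (r k : PowerSeries ℂ))
          (Psi N M q r) := by
    apply Rep.sum
    intro k hk
    have hk' := Finset.mem_range.mp hk
    refine Rep.mul (Rep.mul ?_ (Rep.X_pow _)) (Rep.poly _)
    apply Rep.prod
    intro i hi
    have hi' := Finset.mem_range.mp hi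
    exact gf_rep (hq i (by omega)) (hq1 i (by omega))
  have hprod := ((hE.mul hh).congr (G := Psi N M q r)
    (fun s hs => hHE s (by simpa using hs))).unique hΨ
  have hlim : Tendsto (fun n => PowerSeries.coeff n h) atTop (𝓝 0) :=
    coeff_tendsto_zero H _ C hh (fun s hs => hC s (by simpa using hs))
  have := formal_kernel N M q (fun k => (r k : PowerSeries ℂ)) hq hq1 hq0 hM
    (by intro k hk i hi; rw [Polynomial.coeff_coe]; exact hr k hk i hi) h hprod hlim
  intro k hk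
  have h2 := this k hk
  exact_mod_cast h2

end

end Pool.Agent.R515.RM
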