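import Pool.Agent.R515.RM.Kernel

/-!
Integer valued random variables bounded below and their generating functions
(used in MP_432bca_pr).
-/

namespace Pool.Agent.R515.RM

open Filter Topology Finset Metric MeasureTheory ProbabilityTheory

variable {Ω : Type*} [MeasurableSpace Ω]

/-- generating function of an integer valued random variable,
`G_Y(s) = ∑_k s^k P(Y = k)` -/
noncomputable def genFun (P : Measure Ω) (Y : Ω → ℤ) (s : ℂ) : ℂ :=
  ∑' k : ℤ, s ^ k * (P.real {ω | Y ω = k} : ℂ)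

variable {P : Measure Ω} [IsProbabilityMeasure P]

lemma hasSum_law_int {Y : Ω → ℤ} (hY : Measurable Y) {E : Type*} [NormedAddCommGroup E]
    [NormedSpace ℝ E] [CompleteSpace E] (f : ℤ → E)
    (hf : Integrable (fun ω => f (Y ω)) P) :
    HasSum (fun k : ℤ => P.real {ω | Y ω = k} • f k) (∫ ω, f (Y ω) ∂P) := by
  have hfm : AEStronglyMeasurable f (P.map Y) :=
    (StronglyMeasurable.of_discrete (f := f)).aestronglyMeasurable
  have h1 : Integrable f (P.map Y) := (integrable_map_measure hfm hY.aemeasurable).mpr hf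
  have h2 : ∫ ω, f (Y ω) ∂P = ∫ k, f k ∂(P.map Y) := (integral_map hY.aemeasurable hfm).symm
  rw [h2]
  have h3 := h1
  rw [← Measure.sum_smul_dirac (P.map Y)] at h3
  have h4 := hasSum_integral_measure h3
  rw [Measure.sum_smul_dirac] at h4
  refine h4.congr_fun fun k => ?_
  rw [integral_smul_measure, integral_dirac, Measure.real,
    Measure.map_apply hY (measurableSet_singleton k)]
  rfl

lemma hasSum_law {Y : Ω → ℤ} (hY : Measurable Y) {m : ℤ} (hm : ∀ᵐ ω ∂P, m ≤ Y ω)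
    {E : Type*} [NormedAddCommGroup E]
    [NormedSpace ℝ E] [CompleteSpace E] (f : ℤ → E)
    (hf : Integrable (fun ω => f (Y ω)) P) :
    HasSum (fun i : ℕ => P.real {ω | Y ω = m + i} • f (m + i)) (∫ ω, f (Y ω) ∂P) := by
  have h := hasSum_law_int hY f hf
  have hinj : Function.Injective (fun i : ℕ => m + (i:ℤ)) := by
    intro a b hab; simpa using hab
  rw [← hinj.hasSum_iff (f := fun k : ℤ => P.real {ω | Y ω = k} • f k)] at h
  · exact h
  · intro k hk
    have hk' : k < m := by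
      by_contra hcon
      push Not at hcon
      exact hk ⟨(k - m).toNat, by simp only; omega⟩
    have : P {ω | Y ω = k} = 0 := by
      rw [← nonpos_iff_eq_zero, ← (ae_iff.mp hm)]
      apply measure_mono
      intro ω hω
      simp only [Set.mem_ofPred_eq] at hω ⊢
      omega
    simp [Measure.real, this]

lemma integrable_zpow {Y : Ω → ℤ} (hY : Measurable Y) {m : ℤ} (hm : ∀ᵐ ω ∂P, m ≤ Y ω)
    {s : ℂ} (hs : ‖s‖ ≤ 1) (hs0 : s ≠ 0) : Integrable (fun ω => s ^ (Y ω)) P := by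
  apply Integrable.of_bound (C := ‖s‖ ^ m)
  · exact ((StronglyMeasurable.of_discrete (f := fun k : ℤ => s ^ k)).comp_measurable hY).aestronglyMeasurable
  · filter_upwards [hm] with ω hω
    rw [norm_zpow]
    exact zpow_le_zpow_right_of_le_one₀ (norm_pos_iff.mpr hs0) hs hω

lemma genFun_eq_integral {Y : Ω → ℤ} (hY : Measurable Y) {m : ℤ} (hm : ∀ᵐ ω ∂P, m ≤ Y ω)
    {s : ℂ} (hs : ‖s‖ ≤ 1) (hs0 : s ≠ 0) : genFun P Y s = ∫ ω, s ^ (Y ω) ∂P := by
  have h := hasSum_law_int hY (fun k : ℤ => s ^ k) (integrable_zpow hY hm hs hs0)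
  rw [← h.tsum_eq]
  unfold genFun
  congr 1
  ext k
  rw [Complex.real_smul, mul_comm]

lemma genFun_eq_gf {Y : Ω → ℤ} (hY : Measurable Y) {m : ℤ} (hm : ∀ᵐ ω ∂P, m ≤ Y ω)
    {s : ℂ} (hs : ‖s‖ ≤ 1) (hs0 : s ≠ 0) :
    genFun P Y s = s ^ m * gf (fun i : ℕ => P.real {ω | Y ω = m + i}) s := by
  rw [genFun_eq_integral hY hm hs hs0]
  have h := hasSum_law hY hm (fun k : ℤ => s ^ k) (integrable_zpow hY hm hs hs0)
  rw [← h.tsum_eq, gf, ← tsum_mul_left]
  congr 1
  ext i
  rw [Complex.real_smul, zpow_add₀ hs0, zpow_natCast]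
  ring

lemma law_hasSum_one {Y : Ω → ℤ} (hY : Measurable Y) {m : ℤ} (hm : ∀ᵐ ω ∂P, m ≤ Y ω) :
    HasSum (fun i : ℕ => P.real {ω | Y ω = m + i}) 1 := by
  have := hasSum_law hY hm (fun _ : ℤ => (1:ℝ)) (integrable_const 1)
  simpa using this

lemma law_hasSum_mean {Y : Ω → ℤ} (hY : Measurable Y) {m : ℤ} (hm : ∀ᵐ ω ∂P, m ≤ Y ω)
    (hint : Integrable (fun ω => (Y ω : ℝ)) P) :
    HasSum (fun i : ℕ => (i:ℝ) * P.real {ω | Y ω = m + i}) (∫ ω, (Y ω : ℝ) ∂P - m) := by
  have h1 : Integrable (fun ω => (Y ω : ℝ) - m) P := hint.sub (integrable_const _)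
  have h2 := hasSum_law hY hm (fun k : ℤ => (k:ℝ) - m) h1
  rw [integral_sub hint (integrable_const _)] at h2
  simp only [integral_const, probReal_univ, smul_eq_mul, one_mul] at h2
  refine h2.congr_fun fun i => ?_
  push_cast; ring

lemma zsum {ι : Type*} [DecidableEq ι] (s : ℂ) (hs0 : s ≠ 0) (T : Finset ι) (a : ι → ℤ) :
    ∏ i ∈ T, s ^ (a i) = s ^ (∑ i ∈ T, a i) := by
  induction T using Finset.induction_on with
  | empty => simp
  | insert b T hb ih => rw [Finset.prod_insert hb, Finset.sum_insert hb, ih, zpow_add₀ hs0]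

lemma genFun_sum {ι : Type*} [Fintype ι] [DecidableEq ι] {X : ι → Ω → ℤ}
    (hX : ∀ i, Measurable (X i)) (hind : iIndepFun X P) {m : ι → ℤ}
    (hm : ∀ i, ∀ᵐ ω ∂P, m i ≤ X i ω) (T : Finset ι)
    {s : ℂ} (hs : ‖s‖ ≤ 1) (hs0 : s ≠ 0) :
    genFun P (fun ω => ∑ i ∈ T, X i ω) s = ∏ i ∈ T, genFun P (X i) s := by
  have hmT : ∀ᵐ ω ∂P, ∑ i ∈ T, m i ≤ ∑ i ∈ T, X i ω := by
    have : ∀ᵐ ω ∂P, ∀ i, m i ≤ X i ω := ae_all_iff.mpr hm
    filter_upwards [this] with ω hω
    exact Finset.sum_le_sum fun i _ => hω i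
  have hXT : Measurable (fun ω => ∑ i ∈ T, X i ω) := Finset.measurable_fun_sum T fun i _ => hX i
  rw [genFun_eq_integral hXT hmT hs hs0]
  have h1 := hind.integral_fun_prod_comp (f := fun i (k : ℤ) => if i ∈ T then s ^ k else (1:ℂ))
    (fun i => (hX i).aemeasurable)
    (fun i => (StronglyMeasurable.of_discrete).aestronglyMeasurable)
  have h2 : ∀ ω, ∏ i, (if i ∈ T then s ^ (X i ω) else (1:ℂ)) = s ^ (∑ i ∈ T, X i ω) := by
    intro ω
    rw [Finset.prod_ite_mem, Finset.univ_inter]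
    exact zsum s hs0 T (fun i => X i ω)
  simp only [h2] at h1
  rw [h1, ← Finset.prod_subset (Finset.subset_univ T)]
  · refine Finset.prod_congr rfl fun i hi => ?_
    simp only [hi, if_true]
    rw [genFun_eq_integral (hX i) (hm i) hs hs0]
  · intro i _ hi
    simp [hi]

end Pool.Agent.R515.RM
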