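import Mathlib

/-!
Functions on the open unit disc represented by a power series (used in MP_432bca_pr).
-/

namespace Pool.Agent.R515.RM

open Filter Topology Finset PowerSeries

/-- `F` is the sum of the power series `f` on the open unit disc. -/
def Rep (f : PowerSeries ℂ) (F : ℂ → ℂ) : Prop :=
  ∀ s : ℂ, ‖s‖ < 1 → HasSum (fun n => coeff n f * s^n) (F s)

lemma Rep.mul {f g : PowerSeries ℂ} {F G : ℂ → ℂ} (hf : Rep f F) (hg : Rep g G) :
    Rep (f * g) (fun s => F s * G s) := by
  intro s hs
  have h1 := hf s hs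
  have h2 := hg s hs
  have n1 : Summable (fun n => ‖coeff n f * s^n‖) := summable_norm_iff.mpr h1.summable
  have n2 : Summable (fun n => ‖coeff n g * s^n‖) := summable_norm_iff.mpr h2.summable
  have h3 := tsum_mul_tsum_eq_tsum_sum_antidiagonal_of_summable_norm n1 n2
  have h4 := (summable_norm_sum_mul_antidiagonal_of_summable_norm n1 n2).of_norm.hasSum
  rw [← h3, h1.tsum_eq, h2.tsum_eq] at h4
  refine h4.congr_fun fun n => ?_
  rw [PowerSeries.coeff_mul, Finset.sum_mul]
  refine Finset.sum_congr rfl fun p hp => ?_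
  rw [Finset.HasAntidiagonal.mem_antidiagonal] at hp
  rw [← hp, pow_add]; ring

lemma Rep.add {f g : PowerSeries ℂ} {F G : ℂ → ℂ} (hf : Rep f F) (hg : Rep g G) :
    Rep (f + g) (fun s => F s + G s) := by
  intro s hs
  refine ((hf s hs).add (hg s hs)).congr_fun fun n => ?_
  rw [map_add]; ring

lemma Rep.sub {f g : PowerSeries ℂ} {F G : ℂ → ℂ} (hf : Rep f F) (hg : Rep g G) :
    Rep (f - g) (fun s => F s - G s) := by
  intro s hs
  refine ((hf s hs).sub (hg s hs)).congr_fun fun n => ?_
  rw [map_sub]; ring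

lemma Rep.zero : Rep 0 (fun _ => 0) := by
  intro s _
  simp [hasSum_zero]

lemma Rep.poly (p : Polynomial ℂ) : Rep (p : PowerSeries ℂ) (fun s => p.eval s) := by
  intro s _
  simp only [Polynomial.coeff_coe]
  rw [Polynomial.eval_eq_sum_range]
  refine hasSum_sum_of_ne_finset_zero (s := range (p.natDegree + 1)) ?_ 
  intro n hn
  rw [Polynomial.coeff_eq_zero_of_natDegree_lt (by simpa using hn), zero_mul]

lemma Rep.X_pow (M : ℕ) : Rep ((X : PowerSeries ℂ)^M) (fun s => s^M) := by
  have := Rep.poly ((Polynomial.X : Polynomial ℂ)^M)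
  simpa using this

lemma Rep.one : Rep 1 (fun _ => 1) := by
  have := Rep.poly (1 : Polynomial ℂ)
  simpa using this

lemma Rep.sum {ι : Type*} (s : Finset ι) (f : ι → PowerSeries ℂ) (F : ι → ℂ → ℂ)
    (h : ∀ i ∈ s, Rep (f i) (F i)) : Rep (∑ i ∈ s, f i) (fun z => ∑ i ∈ s, F i z) := by
  classical
  induction s using Finset.induction_on with
  | empty => simpa using Rep.zero
  | insert a s ha ih =>
    simp only [Finset.sum_insert ha]
    exact (h a (by simp)).add (ih fun i hi => h i (by simp [hi]))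

lemma Rep.prod {ι : Type*} (s : Finset ι) (f : ι → PowerSeries ℂ) (F : ι → ℂ → ℂ)
    (h : ∀ i ∈ s, Rep (f i) (F i)) : Rep (∏ i ∈ s, f i) (fun z => ∏ i ∈ s, F i z) := by
  classical
  induction s using Finset.induction_on with
  | empty => simpa using Rep.one
  | insert a s ha ih =>
    simp only [Finset.prod_insert ha]
    exact (h a (by simp)).mul (ih fun i hi => h i (by simp [hi]))

/-- the formal multilinear series of a scalar sequence -/
lemma Rep.hasFPowerSeriesAt {f : PowerSeries ℂ} {F : ℂ → ℂ} (hf : Rep f F) :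
    HasFPowerSeriesAt F (FormalMultilinearSeries.ofScalars ℂ (fun n => coeff n f)) 0 := by
  rw [hasFPowerSeriesAt_iff]
  filter_upwards [Metric.ball_mem_nhds (0:ℂ) one_pos] with z hz
  rw [mem_ball_zero_iff] at hz
  rw [zero_add]
  refine (hf z hz).congr_fun fun n => ?_
  rw [FormalMultilinearSeries.coeff_ofScalars, smul_eq_mul, mul_comm]

lemma Rep.unique {f g : PowerSeries ℂ} {F : ℂ → ℂ} (hf : Rep f F) (hg : Rep g F) : f = g := by
  have h := hf.hasFPowerSeriesAt.eq_formalMultilinearSeries hg.hasFPowerSeriesAt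
  ext n
  have h2 := congrArg (fun p => FormalMultilinearSeries.coeff p n) h
  simpa [FormalMultilinearSeries.coeff_ofScalars] using h2

lemma Rep.congr {f : PowerSeries ℂ} {F G : ℂ → ℂ} (hf : Rep f F)
    (h : ∀ s : ℂ, ‖s‖ < 1 → F s = G s) : Rep f G := by
  intro s hs
  rw [← h s hs]; exact hf s hs

lemma rep_of_differentiableOn {H : ℂ → ℂ} (hH : DifferentiableOn ℂ H (Metric.ball 0 1)) :
    ∃ f : PowerSeries ℂ, Rep f H := by
  refine ⟨PowerSeries.mk (fun n => (n.factorial : ℂ)⁻¹ * iteratedDeriv n H 0), ?_⟩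
  intro s hs
  have := Complex.hasSum_taylorSeries_on_ball hH (z := s) (by simpa using hs)
  refine this.congr_fun fun n => ?_
  simp only [PowerSeries.coeff_mk, smul_eq_mul, sub_zero]
  ring

end Pool.Agent.R515.RM
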